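import Mathlib
import Pool.Agent.H55.Cross

namespace Pool.Agent.Results.MP_63c1c3_gt.CroMetrizable

open Pool.Agent.H55.Cross TopologicalSpace

/-- Q1: for Polish `X`, `Y` every compact subspace of `S_cro(X × Y)` is metrizable. -/
theorem result (X Y : Type) [TopologicalSpace X] [TopologicalSpace Y] [PolishSpace X]
    [PolishSpace Y] (K : Set (SepC X Y)) (hK : @IsCompact _ (croTop X Y) K) :
    @MetrizableSpace K (TopologicalSpace.induced Subtype.val (croTop X Y)) := by
  let _ := croTop X Y
  have := isCompact_iff_compactSpace.1 hK
  exact metrizable_of_ev (croTop X Y) ev_cro (Subtype.val : K → SepC X Y) continuous_subtype_val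
    Subtype.val_injective

end Pool.Agent.Results.MP_63c1c3_gt.CroMetrizable
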